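import Pool.Agent.Helper57.Dir.Final

/-!
# Boundary uniqueness sets of the Dirichlet space are not described by Sobolev traces

We construct a closed set `E` on the unit circle which is a uniqueness set for the analytic Dirichlet
space, although some non-negative continuous compactly supported function of the Sobolev space
`W_2^1(ℂ)` vanishes on `E` and has an integrable logarithm on the circle.
-/

set_option autoImplicit false

namespace Pool.Agent.Results.MP_20cf85_an.DirichletTrace

open Filter MeasureTheory Metric Real Set Topology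
open scoped ContDiff

/-- `f` belongs to the Dirichlet space: it is analytic in the open unit disc and `|f'|^2` is
integrable over the disc. -/
def InDirichletSpace (f : ℂ → ℂ) : Prop :=
  DifferentiableOn ℂ f (ball 0 1) ∧ IntegrableOn (fun z => ‖deriv f z‖ ^ 2) (ball 0 1) volume

/-- `f = 0` on the subset `E` of the unit circle, in the sense of radial limits. -/
def RadiallyZeroOn (f : ℂ → ℂ) (E : Set ℂ) : Prop :=
  ∀ ζ ∈ E, Tendsto (fun r : ℝ => f (r * ζ)) (𝓝[<] 1) (𝓝 0)

/-- `E` is a closed subset of the unit circle which is a uniqueness set for the Dirichlet space. -/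
def IsUniquenessSet (E : Set ℂ) : Prop :=
  IsClosed E ∧ E ⊆ sphere 0 1 ∧
    ∀ f : ℂ → ℂ, InDirichletSpace f → RadiallyZeroOn f E → ∀ z ∈ ball (0 : ℂ) 1, f z = 0

/-- `u : ℂ → ℝ` belongs to the Sobolev space `W_2^1(ℂ)`: it is square integrable over the plane and
has square integrable generalized partial derivatives `g₁`, `g₂` in the directions `1` and `i`. -/
def MemSobolev (u : ℂ → ℝ) : Prop :=
  MemLp u 2 volume ∧ ∃ g₁ g₂ : ℂ → ℝ, MemLp g₁ 2 volume ∧ MemLp g₂ 2 volume ∧
    ∀ φ : ℂ → ℝ, ContDiff ℝ ∞ φ → HasCompactSupport φ →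
      (∫ z, u z * fderiv ℝ φ z 1 = -∫ z, g₁ z * φ z) ∧
      (∫ z, u z * fderiv ℝ φ z Complex.I = -∫ z, g₂ z * φ z)

/-- There is a closed set `E` on the circle which is a uniqueness set for the Dirichlet space, and a
continuous compactly supported non-negative `u` in `W_2^1(ℂ)` which vanishes on `E`, is positive
almost everywhere on the circle and whose logarithm is integrable over the circle. -/
theorem result : ∃ E : Set ℂ, IsUniquenessSet E ∧
    ∃ u : ℂ → ℝ, Continuous u ∧ HasCompactSupport u ∧ (∀ z, 0 ≤ u z) ∧ MemSobolev u ∧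
      (∀ ζ ∈ E, u ζ = 0) ∧
      (∀ᵐ t : ℝ ∂(volume.restrict (Ioc (-π) π)), 0 < u (Complex.exp (t * Complex.I))) ∧
      IntegrableOn (fun t : ℝ => Real.log (u (Complex.exp (t * Complex.I)))) (Ioc (-π) π) volume := by
  obtain ⟨E, hE1, hE2, hE3, u, hu1, hu2, hu3, hu4, hu5, hu6, hu7⟩ :=
    Pool.Agent.Helper57.Dir.final_main
  have e : ∀ t : ℝ, circleMap 0 1 t = Complex.exp (t * Complex.I) := by
    intro t
    simp [circleMap]
  refine ⟨E, ⟨hE1, hE2, fun f hf h0 => hE3 f hf.1 hf.2 h0⟩, u, hu1, hu2, hu3, hu4, hu5, ?_, ?_⟩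
  · filter_upwards [hu6] with t ht
    rw [← e t]
    exact ht
  · simp_rw [← e]
    exact hu7

end Pool.Agent.Results.MP_20cf85_an.DirichletTrace
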